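import Pool.Agent.W407.SE.Ratp0
import Pool.Agent.W307.SE.Stm

/-! RATP -/

set_option autoImplicit false

namespace Pool.Agent.W407.SE

theorem ratp : Pool.Agent.W307.SE.RATP := by
  intro p _ A B x y h1 h2 h3
  exact core p A B x y h1 h2 h3

end Pool.Agent.W407.SE
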