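import Mathlib

/-! RATP, core -/

set_option autoImplicit false

namespace Pool.Agent.W407.SE

variable {p : ℕ} [hp : Fact p.Prime]

/-- `1 + r` is a square if `r` has positive valuation and `p` is odd. -/
lemma isSquare_one_add (hp2 : p ≠ 2) (r : ℚ_[p]) (hr : ‖r‖ < 1) : IsSquare (1 + r) := by
  let r' : ℤ_[p] := ⟨r, hr.le⟩
  let F : Polynomial ℤ_[p] := Polynomial.X ^ 2 - Polynomial.C (1 + r')
  have hr' : ‖r'‖ < 1 := hr
  have h1 : F.aeval (1 : ℤ_[p]) = -r' := by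
    simp [F]
  have h2 : F.derivative.aeval (1 : ℤ_[p]) = 2 := by
    simp [F, one_add_one_eq_two]
  have h3 : ‖(2 : ℤ_[p])‖ = 1 := by
    have h4 : ¬ (p : ℤ) ∣ 2 := by
      intro h
      have h5 : p ∣ 2 := by exact_mod_cast h
      exact hp2 ((Nat.prime_dvd_prime_iff_eq hp.out Nat.prime_two).1 h5)
    have h5 : ¬ ‖((2 : ℤ) : ℚ_[p])‖ < 1 := by
      rw [Padic.norm_intCast_lt_one_iff]
      exact h4
    have h6 : ‖(2 : ℤ_[p])‖ = ‖((2 : ℤ) : ℚ_[p])‖ := by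
      rw [PadicInt.norm_def]
      norm_cast
    have h7 := PadicInt.norm_le_one (2 : ℤ_[p])
    rw [h6] at h7 ⊢
    exact le_antisymm h7 (not_lt.1 h5)
  obtain ⟨z, hz, -⟩ := hensels_lemma (p := p) (R := ℤ_[p]) (F := F) (a := 1) (by
    rw [h1, h2, h3, norm_neg]
    simpa using hr')
  have h8 : z ^ 2 = 1 + r' := by
    have : F.aeval z = z ^ 2 - (1 + r') := by simp [F]
    rw [this] at hz
    exact sub_eq_zero.1 hz
  refine ⟨(z : ℚ_[p]), ?_⟩
  have h9 := congrArg (fun w : ℤ_[p] => (w : ℚ_[p])) h8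
  simp only [PadicInt.coe_pow, PadicInt.coe_add, PadicInt.coe_one] at h9
  rw [← pow_two, h9]

lemma near (hp2 : p ≠ 2) (x x0 : ℚ_[p]) (h : ‖x - x0‖ < ‖x‖) : IsSquare (x * x0) ∧ x0 ≠ 0 := by
  have hx : x ≠ 0 := by
    rintro rfl
    rw [norm_zero] at h
    exact absurd h (not_lt.2 (norm_nonneg _))
  have h1 : ‖(x0 - x) / x‖ < 1 := by
    rw [norm_div, div_lt_one (norm_pos_iff.2 hx), norm_sub_rev]
    exact h
  obtain ⟨z, hz⟩ := isSquare_one_add hp2 _ h1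
  constructor
  · refine ⟨x * z, ?_⟩
    have : x0 = x * (z * z) := by
      rw [← hz]
      field_simp
      ring
    calc x * x0 = x * (x * (z * z)) := by rw [← this]
      _ = _ := by ring
  · rintro rfl
    rw [sub_zero] at h
    exact lt_irrefl _ h

lemma jac (D : ℤ) (hD : ¬ (p : ℤ) ∣ D) (h : IsSquare ((D : ℤ) : ℚ_[p])) : jacobiSym D p = 1 := by
  obtain ⟨w, hw⟩ := h
  have hn : ‖((D : ℤ) : ℚ_[p])‖ = 1 := by
    have h1 : ¬ ‖((D : ℤ) : ℚ_[p])‖ < 1 := by rwa [Padic.norm_intCast_lt_one_iff]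
    exact le_antisymm (Padic.norm_int_le_one D) (not_lt.1 h1)
  have hwn : ‖w‖ = 1 := by
    rw [hw, norm_mul] at hn
    nlinarith [norm_nonneg w]
  let w' : ℤ_[p] := ⟨w, hwn.le⟩
  have h2 : ((D : ℤ) : ℤ_[p]) = w' * w' := by
    apply PadicInt.ext
    rw [PadicInt.coe_intCast, PadicInt.coe_mul]
    exact hw
  have h3 := congrArg (PadicInt.toZMod (p := p)) h2
  rw [map_intCast, map_mul] at h3
  have hD0 : ((D : ℤ) : ZMod p) ≠ 0 := by
    rwa [Ne, ZMod.intCast_zmod_eq_zero_iff_dvd]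
  rw [← jacobiSym.legendreSym.to_jacobiSym]
  exact (legendreSym.eq_one_iff p hD0).2 ⟨_, h3⟩

theorem core (p : ℕ) [Fact p.Prime] (A B : ℤ) (x y : ℚ_[p]) (hp2 : p ≠ 2) (hy : y ≠ 0)
    (hxy : y ^ 2 = x * (x - A) * (x - B)) :
    ∃ (D : ℤ) (x' y' : ℚ), ¬ (p : ℤ) ∣ D ∧ jacobiSym D p = 1 ∧ y' ≠ 0 ∧
    y' ^ 2 = x' * (x' - (A * D : ℤ)) * (x' - (B * D : ℤ)) ∧
    IsSquare (x * ((x' : ℚ) : ℚ_[p])) ∧
    IsSquare ((x - A) * ((x' - (A * D : ℤ) : ℚ) : ℚ_[p])) := by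
  have hpp : p.Prime := Fact.out
  have hy2 : y ^ 2 ≠ 0 := pow_ne_zero 2 hy
  rw [hxy] at hy2
  have hx : x ≠ 0 := left_ne_zero_of_mul (left_ne_zero_of_mul hy2)
  have hxA : x - A ≠ 0 := right_ne_zero_of_mul (left_ne_zero_of_mul hy2)
  have hxB : x - B ≠ 0 := right_ne_zero_of_mul hy2
  obtain ⟨x0, hx0⟩ := Padic.rat_dense p x
    (ε := min ‖x‖ (min ‖x - A‖ ‖x - B‖))
    (lt_min (norm_pos_iff.2 hx) (lt_min (norm_pos_iff.2 hxA) (norm_pos_iff.2 hxB)))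
  have n1 : ‖x - (x0 : ℚ_[p])‖ < ‖x‖ := hx0.trans_le (min_le_left _ _)
  have n2 : ‖(x - A) - ((x0 : ℚ_[p]) - A)‖ < ‖x - A‖ := by
    rw [sub_sub_sub_cancel_right]
    exact hx0.trans_le ((min_le_right _ _).trans (min_le_left _ _))
  have n3 : ‖(x - B) - ((x0 : ℚ_[p]) - B)‖ < ‖x - B‖ := by
    rw [sub_sub_sub_cancel_right]
    exact hx0.trans_le ((min_le_right _ _).trans (min_le_right _ _))
  obtain ⟨s1, z1⟩ := near hp2 _ _ n1
  obtain ⟨s2, z2⟩ := near hp2 _ _ n2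
  obtain ⟨s3, z3⟩ := near hp2 _ _ n3
  set E : ℚ := x0 * (x0 - A) * (x0 - B) with hE
  have hEc : ((E : ℚ) : ℚ_[p]) = (x0 : ℚ_[p]) * ((x0 : ℚ_[p]) - A) * ((x0 : ℚ_[p]) - B) := by
    rw [hE]; push_cast; ring
  have hE0' : ((E : ℚ) : ℚ_[p]) ≠ 0 := by
    rw [hEc]
    exact mul_ne_zero (mul_ne_zero z1 z2) z3
  have hE0 : E ≠ 0 := by
    intro h
    rw [h] at hE0'
    simp at hE0'
  have hEs : IsSquare ((E : ℚ) : ℚ_[p]) := by
    have h1 : IsSquare (((E : ℚ) : ℚ_[p]) * y ^ 2) := by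
      have : ((E : ℚ) : ℚ_[p]) * y ^ 2 =
          (x * (x0 : ℚ_[p])) * ((x - A) * ((x0 : ℚ_[p]) - A)) * ((x - B) * ((x0 : ℚ_[p]) - B)) := by
        rw [hEc, hxy]; ring
      rw [this]
      exact (s1.mul s2).mul s3
    obtain ⟨r, hr⟩ := h1
    refine ⟨r / y, ?_⟩
    field_simp
    rw [hr]
    ring
  -- valuation
  have hp0 : (p : ℚ) ≠ 0 := by exact_mod_cast hpp.ne_zero
  obtain ⟨r, hr⟩ := hEs
  have hr0 : r ≠ 0 := by
    rintro rfl
    rw [mul_zero] at hr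
    exact hE0' hr
  have hval : padicValRat p E = 2 * r.valuation := by
    have h1 := congrArg Padic.valuation hr
    rw [Padic.valuation_ratCast, Padic.valuation_mul hr0 hr0] at h1
    rw [h1]; ring
  set k : ℤ := r.valuation with hk
  set u : ℚ := E / ((p : ℚ) ^ k) ^ 2 with hu
  have hpk : ((p : ℚ) ^ k) ≠ 0 := zpow_ne_zero _ hp0
  have hu0 : u ≠ 0 := div_ne_zero hE0 (pow_ne_zero 2 hpk)
  have huv : padicValRat p u = 0 := by
    rw [hu, padicValRat.div hE0 (pow_ne_zero 2 hpk), padicValRat.pow, padicValRat.zpow,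
      padicValRat.self hpp.one_lt, hval]
    push_cast
    ring
  have hcop : u.num.natAbs.Coprime u.den := u.reduced
  have hdef : (padicValInt p u.num : ℤ) - padicValNat p u.den = 0 := by
    rw [← huv]; rfl
  have hden : ¬ p ∣ u.den := by
    intro h
    have h1 : ¬ p ∣ u.num.natAbs := fun h2 =>
      (Nat.not_coprime_of_dvd_of_dvd hpp.one_lt h2 h) hcop
    have h2 : padicValInt p u.num = 0 := by
      unfold padicValInt
      exact padicValNat.eq_zero_of_not_dvd h1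
    have h3 : 1 ≤ padicValNat p u.den := one_le_padicValNat_of_dvd u.den_ne_zero h
    omega
  have hnum : ¬ (p : ℤ) ∣ u.num := by
    intro h
    have h2 : padicValNat p u.den = 0 := padicValNat.eq_zero_of_not_dvd hden
    have h3 : p ∣ u.num.natAbs := Int.natCast_dvd.1 h
    have h4 : 1 ≤ padicValNat p u.num.natAbs :=
      one_le_padicValNat_of_dvd (Int.natAbs_ne_zero.2 (Rat.num_ne_zero.2 hu0)) h3
    unfold padicValInt at hdef
    omega
  set D : ℤ := u.num * u.den with hD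
  have hpi : Prime (p : ℤ) := Nat.prime_iff_prime_int.1 hpp
  have hDp : ¬ (p : ℤ) ∣ D := by
    intro h
    rcases hpi.dvd_or_dvd h with h | h
    · exact hnum h
    · exact hden (by exact_mod_cast h)
  have hdq : (u.den : ℚ) ≠ 0 := by exact_mod_cast u.den_ne_zero
  have huD : u * (u.den : ℚ) ^ 2 = D := by
    have h1 : u * u.den = u.num := Rat.mul_den_eq_num u
    rw [hD]
    push_cast
    rw [pow_two, ← mul_assoc, h1]
  set m : ℚ := (p : ℚ) ^ k / u.den with hm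
  have hm0 : m ≠ 0 := div_ne_zero hpk hdq
  have hEm : E = D * m ^ 2 := by
    rw [← huD, hm, hu]
    field_simp
  have hDs : IsSquare ((D : ℤ) : ℚ_[p]) := by
    have hmc : ((m : ℚ) : ℚ_[p]) ≠ 0 := by exact_mod_cast hm0
    refine ⟨r / m, ?_⟩
    have h1 : ((E : ℚ) : ℚ_[p]) = (D : ℚ_[p]) * (m : ℚ_[p]) ^ 2 := by
      rw [hEm]; push_cast; ring
    rw [hr] at h1
    field_simp
    rw [← pow_two] at h1
    exact h1.symm
  have hD0 : (D : ℚ) ≠ 0 := by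
    intro h
    apply hDp
    have : D = 0 := by exact_mod_cast h
    rw [this]
    exact dvd_zero _
  refine ⟨D, x0 * D, D ^ 2 * m, hDp, jac D hDp hDs, mul_ne_zero (pow_ne_zero 2 hD0) hm0, ?_, ?_, ?_⟩
  · have h1 : (D : ℚ) * m ^ 2 = x0 * (x0 - A) * (x0 - B) := by rw [← hEm]
    push_cast
    calc ((D : ℚ) ^ 2 * m) ^ 2 = (D : ℚ) ^ 3 * (D * m ^ 2) := by ring
      _ = _ := by rw [h1]; ring
  · have : x * ((x0 * (D : ℚ) : ℚ) : ℚ_[p]) = (x * x0) * (D : ℚ_[p]) := by push_cast; ring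
    rw [this]
    exact s1.mul hDs
  · have : (x - A) * ((x0 * (D : ℚ) - (A * D : ℤ) : ℚ) : ℚ_[p]) =
        ((x - A) * ((x0 : ℚ_[p]) - A)) * (D : ℚ_[p]) := by push_cast; ring
    rw [this]
    exact s2.mul hDs

end Pool.Agent.W407.SE
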